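import Pool.Agent.helper93.TV.Spec2

/-! Row tv:FO (MP_29f1cd_al): flatness for all operators. -/

set_option autoImplicit false

namespace Pool.Agent.helper93.TV

open BigOperators Finset Matrix

section

variable {I V : Type} [Fintype I] [DecidableEq I] [Fintype V] [DecidableEq V]

theorem FO_step (D : FD I V) (X : Finset I) (c : V → V → V → V → ℂ) (n n' : ℕ)
    (ψ φ : I → List V → List V → ℂ) (α : ℂ) :
    D.step X c n n' (fun a p q => α * ψ a p q + φ a p q) =
      fun a p q => α * D.step X c n n' ψ a p q + D.step X c n n' φ a p q := by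
  funext b p q
  simp only [FD.step]
  rw [Finset.mul_sum, ← Finset.sum_add_distrib]
  refine Finset.sum_congr rfl fun l _ => ?_
  rw [Finset.mul_sum, ← Finset.sum_add_distrib]
  refine Finset.sum_congr rfl fun p' _ => ?_
  rw [Finset.mul_sum, ← Finset.sum_add_distrib]
  refine Finset.sum_congr rfl fun q' _ => ?_
  rw [Finset.mul_sum, ← Finset.sum_add_distrib]
  refine Finset.sum_congr rfl fun l' _ => ?_
  ring

theorem FO_iter (D : FD I V) (X : Finset I) (c : V → V → V → V → ℂ) (n n' : ℕ)
    (T S : List V → List V → ℂ) (α : ℂ) (k : ℕ) :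
    D.iter X c n n' (fun p q => α * T p q + S p q) k =
      fun a p q => α * D.iter X c n n' T k a p q + D.iter X c n n' S k a p q := by
  induction k with
  | zero =>
    funext a p q
    simp only [FD.iter]
    split_ifs
    · rfl
    · ring
  | succ k ih =>
    simp only [FD.iter]
    rw [ih, FO_step]

theorem FO_Phi (D : FD I V) (X : Finset I) (c : V → V → V → V → ℂ) (m n n' : ℕ)
    (T S : List V → List V → ℂ) (α : ℂ) :
    D.Phi X c m n n' (fun p q => α * T p q + S p q) =
      fun a p q => α * D.Phi X c m n n' T a p q + D.Phi X c m n n' S a p q := by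
  funext a p q
  simp only [FD.Phi]
  rw [FO_iter]
  ring

theorem FO_iter_zero (D : FD I V) (X : Finset I) (c : V → V → V → V → ℂ) (n n' k : ℕ) :
    D.iter X c n n' (fun _ _ => 0) k = fun _ _ _ => 0 := by
  induction k with
  | zero =>
    funext a p q
    simp [FD.iter]
  | succ k ih =>
    simp only [FD.iter]
    rw [ih]
    funext a p q
    simp [FD.step]

theorem FO_Phi_zero (D : FD I V) (X : Finset I) (c : V → V → V → V → ℂ) (m n n' : ℕ) :
    D.Phi X c m n n' (fun _ _ => 0) = fun _ _ _ => 0 := by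
  funext a p q
  simp only [FD.Phi]
  rw [FO_iter_zero, zero_div]

theorem FO_Fam_zero (D : FD I V) (X : Finset I) (c : V → V → V → V → ℂ) (n n' : ℕ) :
    D.Fam X c n n' (fun _ _ _ => 0) where
  supp := fun a p q h => absurd rfl h
  fl := fun l p q' l' _ _ _ => by simp

theorem FO_Fam_add (D : FD I V) (X : Finset I) (c : V → V → V → V → ℂ) (n n' : ℕ)
    (ψ φ : I → List V → List V → ℂ) (α : ℂ) (hψ : D.Fam X c n n' ψ) (hφ : D.Fam X c n n' φ) :
    D.Fam X c n n' (fun a p q => α * ψ a p q + φ a p q) where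
  supp := fun a p q h => by
    by_cases h1 : ψ a p q = 0
    · rw [h1, mul_zero, zero_add] at h
      exact hφ.supp a p q h
    · exact hψ.supp a p q h1
  fl := fun l p q' l' hl hp hq => by
    have h1 := hψ.fl l p q' l' hl hp hq
    have h2 := hφ.fl l p q' l' hl hp hq
    calc ∑ q ∈ lists V n', (α * ψ (D.t l) p q + φ (D.t l) p q) * tp c l q q' l'
        = α * ∑ q ∈ lists V n', ψ (D.t l) p q * tp c l q q' l' +
          ∑ q ∈ lists V n', φ (D.t l) p q * tp c l q q' l' := by
          rw [Finset.mul_sum, ← Finset.sum_add_distrib]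
          exact Finset.sum_congr rfl fun q _ => by ring
      _ = α * ∑ p' ∈ lists V n, tp c l p p' l' * ψ (D.s2 l) p' q' +
          ∑ p' ∈ lists V n, tp c l p p' l' * φ (D.s2 l) p' q' := by rw [h1, h2]
      _ = ∑ p' ∈ lists V n, tp c l p p' l' * (α * ψ (D.s2 l) p' q' + φ (D.s2 l) p' q') := by
          rw [Finset.mul_sum, ← Finset.sum_add_distrib]
          exact Finset.sum_congr rfl fun q _ => by ring

/-- the statement for linear combinations of matrix units -/
theorem FO_comb (D : FD I V) (X : Finset I) (c : V → V → V → V → ℂ) (m : ℕ)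
    (hF : D.Flat X c m) (n : ℕ) (hn : n ≤ 3 * m) (n' : ℕ) (hn' : n' ≤ 3 * m)
    (α : List V × List V → ℂ) (S : Finset (List V × List V))
    (hS : ∀ w ∈ S, D.Op X n n' (mu w.1 w.2)) :
    D.Fam X c n n' (D.Phi X c m n n' (fun p q => ∑ w ∈ S, α w * mu w.1 w.2 p q)) ∧
      D.Phi X c m n n' (fun p q => ∑ w ∈ S, α w * mu w.1 w.2 p q) D.o =
        fun p q => ∑ w ∈ S, α w * mu w.1 w.2 p q := by
  induction S using Finset.induction_on with
  | empty =>
    simp only [Finset.sum_empty]
    rw [FO_Phi_zero]
    exact ⟨FO_Fam_zero D X c n n', rfl⟩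
  | insert w S hw ih =>
    obtain ⟨ih1, ih2⟩ := ih fun w' hw' => hS w' (Finset.mem_insert_of_mem hw')
    obtain ⟨h1, h2⟩ := hF.flat n hn n' hn' w.1 w.2 (hS w (Finset.mem_insert_self w S))
    have e : (fun p q => ∑ w' ∈ insert w S, α w' * mu w'.1 w'.2 p q) =
        fun p q => α w * mu w.1 w.2 p q + ∑ w' ∈ S, α w' * mu w'.1 w'.2 p q := by
      funext p q
      rw [Finset.sum_insert hw]
    rw [e, FO_Phi D X c m n n' (mu w.1 w.2) (fun p q => ∑ w' ∈ S, α w' * mu w'.1 w'.2 p q) (α w)]
    refine ⟨FO_Fam_add D X c n n' _ _ _ h1 ih1, ?_⟩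
    funext p q
    simp only
    rw [h2, ih2]

end

theorem FO : FO_stmt := by
  intro I V _ _ _ _ D X c m hF n hn n' hn' T hT
  classical
  set S : Finset (List V × List V) := (lists V n ×ˢ lists V n').filter fun w => T w.1 w.2 ≠ 0
    with hS
  have hop : ∀ w ∈ S, D.Op X n n' (mu w.1 w.2) := by
    intro w hw p q hpq
    rw [hS, Finset.mem_filter] at hw
    have h1 : p = w.1 ∧ q = w.2 := by
      by_contra hcon
      apply hpq
      simp only [mu]
      rw [if_neg hcon]
    rw [h1.1, h1.2]
    exact hT w.1 w.2 hw.2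
  have e : T = fun p q => ∑ w ∈ S, T w.1 w.2 * mu w.1 w.2 p q := by
    funext p q
    by_cases h : T p q = 0
    · rw [h]
      symm
      apply Finset.sum_eq_zero
      intro w hw
      rw [hS, Finset.mem_filter] at hw
      simp only [mu]
      split_ifs with h1
      · exfalso
        apply hw.2
        rw [← h1.1, ← h1.2]
        exact h
      · rw [mul_zero]
    · have hmem : (p, q) ∈ S := by
        rw [hS, Finset.mem_filter, Finset.mem_product]
        have h2 := hT p q h
        exact ⟨⟨h2.1, h2.2.1⟩, h⟩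
      rw [Finset.sum_eq_single (p, q)]
      · simp [mu]
      · intro w _ hne
        simp only [mu]
        rw [if_neg, mul_zero]
        rintro ⟨h1, h2⟩
        apply hne
        rw [h1, h2]
      · intro h2
        exact absurd hmem h2
  have h := FO_comb D X c m hF n hn n' hn' (fun w => T w.1 w.2) S hop
  rw [← e] at h
  exact h

end Pool.Agent.helper93.TV
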